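import Pool.Agent.H14N.Main

/-!
# The properties over all admissible fields

By helper14.
-/

set_option autoImplicit false
set_option linter.all false

open Polynomial IsDedekindDomain NumberField WithZero
open scoped Classical Pointwise IntermediateField

noncomputable section

namespace Pool.Agent.H14N

open Pool.Agent.N783.PF
open Pool.Agent.H14F (Tot Unr up up_monic up_deg exists_two)
open Pool.Agent.H18G (SelLe SelE twf HtR)
open Pool.Agent.H18N
open Pool.Agent.H18N.Per
open Pool.Agent.H14P (RegAt glob_pt regAt_congr loc_pt AllH)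

theorem allH {F : Type} [Field F] [NumberField F] {g D : ℕ} (hg : 1 ≤ g) {f : (𝓞 F)[X]}
    (hm : f.Monic) (hd : f.natDegree = 2 * g + 1) (hi : Irreducible (fF f)) (hD : 2 ∣ D)
    (hreg : ∀ v : HeightOneSpectrum (𝓞 F), (2 : 𝓞 F) ∈ v.asIdeal → RegAt v f)
    (hB : BdA F D 0 f) (M : Type) [Field M] [NumberField M] [Algebra F M] (hM : AdmW F M D f) :
    AllH F M f := by
  have h0 := noPts hg hm hd hi hD hreg hB M hM
  haveI := hM.galois
  obtain ⟨h1, h2⟩ := hB M hM
  rw [zero_mul, pow_zero] at h2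
  obtain ⟨h3, h4⟩ := Pool.Agent.N783.PF.jac (up_monic hm) (by rw [up_deg hm, hd]; exact ⟨g, rfl⟩) h1
    (selZero_of h2)
  refine ⟨h3, h4, h0, ?_⟩
  intro w hw x y hxy hI
  have hDw : (D : 𝓞 M) ∈ w.asIdeal := by
    obtain ⟨c, rfl⟩ := hD
    rw [Nat.cast_mul, Nat.cast_ofNat]
    exact Ideal.mul_mem_right _ _ hw
  have hu : (2 : 𝓞 F) ∈ (w.under (𝓞 F)).asIdeal := by
    have e2 := Pool.Agent.H14F.nat_mem_under (L := F) w 2
    rw [Nat.cast_ofNat, Nat.cast_ofNat] at e2
    rw [e2]
    exact hw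
  exact loc_pt hw (hM.split w hDw) hg hm hd (hreg _ hu) hi.separable hxy hI

end Pool.Agent.H14N
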