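import Pool.Agent.H14N.Reg
import Pool.Agent.H18N.All
import Pool.Agent.H18N.CLSX

/-!
# Near every curve: no points over all admissible fields

By helper14, from project JN (helper18 and others) and `H14P`.
-/

set_option autoImplicit false
set_option linter.all false

open Polynomial IsDedekindDomain NumberField WithZero
open scoped Classical Pointwise IntermediateField

noncomputable section

namespace Pool.Agent.H14N

open Pool.Agent.H14P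
open Pool.Agent.N783.PF
open Pool.Agent.H14F (Tot Unr up up_monic up_deg exists_two)
open Pool.Agent.H18G (SelLe SelE twf HtR)
open Pool.Agent.H18N
open Pool.Agent.H18N.Per
open Pool.Agent.H68K.PR (pr2)

variable {F : Type} [Field F] [NumberField F]

/-- `f` is not a square modulo the square of a maximal ideal of the polynomial ring over two. -/
def Rg (f : (𝓞 F)[X]) : Prop :=
  ∀ 𝔪 : Ideal (𝓞 F)[X], 𝔪.IsMaximal → (2 : (𝓞 F)[X]) ∈ 𝔪 → ∀ V : (𝓞 F)[X], f - V ^ 2 ∉ 𝔪 ^ 2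

theorem mem_four {v : HeightOneSpectrum (𝓞 F)} (hv : (2 : 𝓞 F) ∈ v.asIdeal) {n : ℕ} {x : 𝓞 F}
    (hx : x ∈ sp F (4 * n)) : x ∈ v.asIdeal ^ 2 := by
  have h1 : sp F (4 * n) ≤ v.asIdeal ^ 2 := by
    rw [Ideal.span_singleton_le_iff_mem, Nat.cast_mul]
    refine Ideal.mul_mem_right _ _ ?_
    rw [pow_two, show ((4 : ℕ) : 𝓞 F) = 2 * 2 by norm_num]
    exact Ideal.mul_mem_mul hv hv
  exact h1 hx

/-- **Near every curve.** -/
theorem nearP (g : ℕ) (F : Type) [Field F] [NumberField F] (hg : 1 ≤ g) (n : ℕ) (hn : 0 < n)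
    (f₀ : (𝓞 F)[X]) (hm : f₀.Monic) (hd : f₀.natDegree = 2 * g + 1) (ht : f₀.coeff (2 * g) = 0)
    (hmin : Min g f₀) (hreg : Odd n ∨ Rg f₀) (ε : ℝ) (hε : 0 < ε) :
    ∃ (D : ℕ) (R : Set (𝓞 F)[X]), 0 < D ∧ 2 ∣ D ∧ PerR D R ∧ (∀ f ∈ R, Cg (sp F n) f f₀) ∧
      (∀ f ∈ R, ∀ v : HeightOneSpectrum (𝓞 F), (2 : 𝓞 F) ∈ v.asIdeal → RegAt v f) ∧
      (∀ f, InFm g D R f → Min g f ∧ Irreducible (fF f) ∧ (StepW F D f).Infinite) ∧
      ∃ (c Y₀ : ℝ), 0 < c ∧ ∀ Y : ℝ, {f : (𝓞 F)[X] | HtR g Y f}.Finite ∧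
      (Y₀ ≤ Y → 0 < {f : (𝓞 F)[X] | HtR g Y f ∧ InFm g D R f}.ncard ∧
      c * ({f : (𝓞 F)[X] | HtR g Y f}.ncard : ℝ) ≤
        ({f : (𝓞 F)[X] | HtR g Y f ∧ InFm g D R f}.ncard : ℝ) ∧
      ({f : (𝓞 F)[X] | HtR g Y f ∧ InFm g D R f ∧ ¬ BdA F D 0 f}.ncard : ℝ) ≤
        (1 - pr2 0 + ε) * ({f : (𝓞 F)[X] | HtR g Y f ∧ InFm g D R f}.ncard : ℝ)) := by
  have h4 : 0 < 4 * n := by omega
  -- the special polynomial
  obtain ⟨f₂, b1, b2, b3, b4, b5, b6⟩ : ∃ f₂ : (𝓞 F)[X], f₂.Monic ∧ f₂.natDegree = 2 * g + 1 ∧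
      f₂.coeff (2 * g) = 0 ∧ Cg (sp F n) f₂ f₀ ∧
      (∀ 𝔭 : Ideal (𝓞 F), 𝔭.IsPrime → ((4 * n : ℕ) : 𝓞 F) ∈ 𝔭 →
        ¬ ∀ j ≤ 2 * g, f₂.coeff j ∈ 𝔭 ^ (2 * (2 * g + 1 - j))) ∧
      ∀ v : HeightOneSpectrum (𝓞 F), (2 : 𝓞 F) ∈ v.asIdeal → RegAt v f₂ := by
    rcases hreg with h | h
    · exact odd_class F hg h hm hd ht hmin
    · refine ⟨f₀, hm, hd, ht, cg_refl _ _, fun 𝔭 hp hmem => hmin 𝔭 hp ?_, fun v hv => regAt_of h hv⟩
      rintro rfl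
      rw [Ideal.mem_bot] at hmem
      have : (4 * n : ℕ) = 0 := by exact_mod_cast hmem
      omega
  obtain ⟨D, R, h1, h2, h3, h5, h6, c, Y₀, hc, h7⟩ := near2 famn CLSX.t admw stepw g F hg (4 * n) h4 f₂
    b1 b2 b3 b5 ε hε
  refine ⟨D, R, h1, h2, h3, fun f hf => ?_, fun f hf v hv => ?_, h6, c, Y₀, hc, fun Y => ?_⟩
  · refine cg_trans (cg_mono (sp_le (Dvd.intro_left 4 rfl)) (h5 f hf)) b4
  · refine regAt_congr (b6 v hv) fun j => ?_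
    exact mem_four hv (cg_symm (h5 f hf) j)
  · obtain ⟨h8, h9⟩ := h7 Y
    refine ⟨h8, fun hY => ?_⟩
    obtain ⟨h10, h11, h12⟩ := h9 hY
    refine ⟨h10, h11, ?_⟩
    have h13 := h12 0
    rw [zero_add, Finset.sum_range_one] at h13
    exact h13

end Pool.Agent.H14N
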