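import Pool.Agent.H14N.Sel

/-!
# Regularity over two

By helper14.
-/

set_option autoImplicit false
set_option linter.all false

open Polynomial IsDedekindDomain NumberField WithZero
open scoped Classical Pointwise

noncomputable section

namespace Pool.Agent.H14N

open Pool.Agent.H14P
open Pool.Agent.N783.PF

variable {F : Type} [Field F] [NumberField F] {v : HeightOneSpectrum (𝓞 F)}

/-- Approximation of polynomials. -/
theorem approx {π : v.adicCompletionIntegers F}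
    (hπ : Valued.v (π : v.adicCompletion F) = exp (-1 : ℤ)) (p : (v.adicCompletionIntegers F)[X]) :
    ∃ q : (𝓞 F)[X], C (π ^ 2) ∣ p - q.map (algebraMap (𝓞 F) (v.adicCompletionIntegers F)) := by
  choose a ha using fun j : ℕ => dens_O v (p.coeff j) 2
  refine ⟨∑ j ∈ Finset.range (p.natDegree + 1), monomial j (a j), ?_⟩
  rw [C_dvd_iff_dvd_coeff]
  intro j
  have e : (∑ j ∈ Finset.range (p.natDegree + 1), monomial j (a j)).coeff j =
      if j < p.natDegree + 1 then a j else 0 := by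
    rw [finset_sum_coeff]
    simp only [coeff_monomial]
    rw [Finset.sum_ite_eq' (Finset.range (p.natDegree + 1)) j a]
    simp only [Finset.mem_range]
  rw [coeff_sub, coeff_map, e]
  split_ifs with h
  · exact (dvd_iff hπ _ 2).2 (ha j)
  · rw [map_zero, sub_zero, coeff_eq_zero_of_natDegree_lt (by omega)]
    exact dvd_zero _

theorem mem_of_dvd {π : v.adicCompletionIntegers F}
    (hπ : Valued.v (π : v.adicCompletion F) = exp (-1 : ℤ)) {a : 𝓞 F} {n : ℕ}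
    (h : π ^ n ∣ algebraMap (𝓞 F) (v.adicCompletionIntegers F) a) : a ∈ v.asIdeal ^ n := by
  rw [dvd_iff hπ, alg_O, val_F] at h
  have h2 := v.valuation_of_algebraMap (K := F) a
  rw [← v.intValuation_le_pow_iff_mem a n]
  exact h2.symm.le.trans h

/-- `f` is not a square modulo the square of a maximal ideal over two. -/
theorem regAt_of {f : (𝓞 F)[X]}
    (hf : ∀ 𝔪 : Ideal (𝓞 F)[X], 𝔪.IsMaximal → (2 : (𝓞 F)[X]) ∈ 𝔪 → ∀ V : (𝓞 F)[X],
      f - V ^ 2 ∉ 𝔪 ^ 2) (h2 : (2 : 𝓞 F) ∈ v.asIdeal) : RegAt v f := by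
  obtain ⟨ϖ, hϖ⟩ := exists_unif v
  refine ⟨_, hϖ, ?_⟩
  set ι := algebraMap (𝓞 F) (v.adicCompletionIntegers F) with hι
  intro m V c₁ c₂ c₃ hirr heq
  obtain ⟨m', b, hb⟩ := approx hϖ m
  obtain ⟨V', a, ha⟩ := approx hϖ V
  obtain ⟨c₁', c, hc⟩ := approx hϖ c₁
  obtain ⟨c₂', d, hd⟩ := approx hϖ c₂
  have hϖv : ϖ ∈ v.asIdeal := (res_mem hϖ ϖ).1 (dv_unif hϖ).rho_pi
  set g : (𝓞 F)[X] := f - V' ^ 2 - m' ^ 2 * c₁' - C ϖ * m' * c₂' with hg
  have hgd : C ((ι ϖ) ^ 2) ∣ g.map ι := by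
    refine ⟨a * (V + V'.map ι) + b * (m + m'.map ι) * c₁ + (m'.map ι) ^ 2 * c +
      C (ι ϖ) * (b * c₂ + m'.map ι * d) + c₃, ?_⟩
    rw [hg]
    simp only [Polynomial.map_sub, Polynomial.map_mul, Polynomial.map_pow, map_C]
    rw [heq]
    linear_combination (V + V'.map ι) * ha + (m + m'.map ι) * c₁ * hb + (m'.map ι) ^ 2 * hc +
      C (ι ϖ) * (c₂ * hb + m'.map ι * hd)
  have hgc : ∀ j, g.coeff j ∈ v.asIdeal ^ 2 := by
    intro j
    apply mem_of_dvd hϖ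
    have h1 := (C_dvd_iff_dvd_coeff _ _).1 hgd j
    rwa [coeff_map] at h1
  haveI : v.asIdeal.IsMaximal := v.isMaximal
  letI : Field (𝓞 F ⧸ v.asIdeal) := Ideal.Quotient.field _
  have hirr' : Irreducible (m'.map (Ideal.Quotient.mk v.asIdeal)) := by
    rw [irr_res hϖ]
    have h3 : (m - m'.map ι).map (IsLocalRing.residue (v.adicCompletionIntegers F)) = 0 := by
      rw [hb, Polynomial.map_mul, map_C, map_pow, (dv_unif hϖ).rho_pi, zero_pow two_ne_zero, C_0,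
        zero_mul]
    rw [Polynomial.map_sub, sub_eq_zero] at h3
    rw [← h3]
    exact hirr
  set φ : (𝓞 F)[X] →+* (𝓞 F ⧸ v.asIdeal)[X] := mapRingHom (Ideal.Quotient.mk v.asIdeal) with hφ
  have hφs : Function.Surjective φ := Polynomial.map_surjective _ Ideal.Quotient.mk_surjective
  set 𝔪 : Ideal (𝓞 F)[X] := Ideal.comap φ (Ideal.span {m'.map (Ideal.Quotient.mk v.asIdeal)}) with h𝔪
  haveI hmax0 : (Ideal.span {m'.map (Ideal.Quotient.mk v.asIdeal)}).IsMaximal :=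
    PrincipalIdealRing.isMaximal_of_irreducible hirr'
  have hmax : 𝔪.IsMaximal := Ideal.comap_isMaximal_of_surjective φ hφs
  have hv𝔪 : ∀ x ∈ v.asIdeal, (C x : (𝓞 F)[X]) ∈ 𝔪 := by
    intro x hx
    rw [h𝔪, Ideal.mem_comap]
    have : φ (C x) = 0 := by
      show (C x).map _ = 0
      rw [map_C, Ideal.Quotient.eq_zero_iff_mem.2 hx, C_0]
    rw [this]
    exact Ideal.zero_mem _
  have h2𝔪 : (2 : (𝓞 F)[X]) ∈ 𝔪 := by
    have := hv𝔪 2 h2
    rwa [C_ofNat] at this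
  have hm𝔪 : m' ∈ 𝔪 := by
    rw [h𝔪, Ideal.mem_comap]
    exact Ideal.mem_span_singleton_self _
  have hg𝔪 : g ∈ 𝔪 ^ 2 := by
    have h3 : g ∈ (v.asIdeal ^ 2).map (C : 𝓞 F →+* (𝓞 F)[X]) := Ideal.mem_map_C_iff.2 hgc
    rw [Ideal.map_pow] at h3
    refine Ideal.pow_right_mono ?_ 2 h3
    rw [Ideal.map_le_iff_le_comap]
    intro x hx
    exact hv𝔪 x hx
  apply hf 𝔪 hmax h2𝔪 V'
  have e : f - V' ^ 2 = g + (m' ^ 2 * c₁' + C ϖ * m' * c₂') := by
    rw [hg]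
    ring
  rw [e]
  refine Ideal.add_mem _ hg𝔪 (Ideal.add_mem _ ?_ ?_)
  · exact Ideal.mul_mem_right _ _ (Ideal.pow_mem_pow hm𝔪 2)
  · rw [pow_two]
    exact Ideal.mul_mem_right _ _ (Ideal.mul_mem_mul (hv𝔪 _ hϖv) hm𝔪)

end Pool.Agent.H14N
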