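import Pool.Agent.H18N.Near
import Pool.Agent.H18N.COREW
import Pool.Agent.H14P.FinH

/-!
# Project JN and points: the trivial Selmer group, no points

By helper14.
-/

set_option autoImplicit false
set_option linter.all false

open Polynomial IsDedekindDomain NumberField WithZero
open scoped Classical Pointwise IntermediateField

noncomputable section

namespace Pool.Agent.H14N

open Pool.Agent.N783.PF
open Pool.Agent.H14F (Tot Unr up up_monic up_deg exists_two)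
open Pool.Agent.H18G (SelLe SelE twf HtR)
open Pool.Agent.H18N
open Pool.Agent.H18N.Per
open Pool.Agent.H14P (RegAt glob_pt regAt_congr)
open Pool.Agent.N891.PQ (locIm_one)
open Pool.Agent.N771.PF (locF_one)

theorem selZero_of {F : Type} [Field F] [NumberField F] {f : (𝓞 F)[X]} (h : SelLe 1 f) :
    SelZero f := by
  obtain ⟨r, hr, hh⟩ := h
  obtain ⟨i, s₀, c, hc⟩ := hh 1 ⟨isCoprime_one_left, ⟨1, by simp⟩, fun w => locF_one _ _,
    fun σ => by rw [Polynomial.map_one]; exact locIm_one _ _⟩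
  intro h h1 h2 h3 h4
  obtain ⟨j, s, d, hd⟩ := hh h ⟨h1, h2, h3, h4⟩
  obtain rfl : i = j := Subsingleton.elim _ _
  obtain ⟨a, b, hab⟩ := hr i
  have e1 : r i = s₀ ^ 2 + fF f * c := by linear_combination hc
  have e2 : a * s₀ * s₀ + (b + a * c) * fF f = 1 := by
    rw [e1] at hab
    linear_combination hab
  refine ⟨s * (a * s₀), ?_⟩
  set t := a * s₀ with ht
  refine ⟨h * ((b + a * c) * (1 + s₀ * t)) - h * c * t ^ 2 + d * t ^ 2, ?_⟩
  have e3 : t * s₀ + (b + a * c) * fF f = 1 := by rw [ht]; linear_combination e2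
  have e4 : h * r i = s ^ 2 + fF f * d := by linear_combination hd
  rw [e1] at e4
  linear_combination (-h * (1 + s₀ * t)) * e3 + (t ^ 2) * e4

/-- No points over the admissible fields. -/
theorem noPts {F : Type} [Field F] [NumberField F] {g D : ℕ} (hg : 1 ≤ g) {f : (𝓞 F)[X]}
    (hm : f.Monic) (hd : f.natDegree = 2 * g + 1) (hi : Irreducible (fF f)) (hD : 2 ∣ D)
    (hreg : ∀ v : HeightOneSpectrum (𝓞 F), (2 : 𝓞 F) ∈ v.asIdeal → RegAt v f)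
    (hB : BdA F D 0 f) (M : Type) [Field M] [NumberField M] [Algebra F M] (hM : AdmW F M D f) :
    ∀ x y : M, y ^ 2 ≠ (fF (up M f)).eval x := by
  haveI := hM.galois
  obtain ⟨h1, h2⟩ := hB M hM
  rw [zero_mul, pow_zero] at h2
  obtain ⟨h3, h4⟩ := Pool.Agent.N783.PF.jac (up_monic hm) (by rw [up_deg hm, hd]; exact ⟨g, rfl⟩) h1
    (selZero_of h2)
  obtain ⟨w, hw⟩ := exists_two M
  have hDw : (D : 𝓞 M) ∈ w.asIdeal := by
    obtain ⟨c, rfl⟩ := hD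
    rw [Nat.cast_mul, Nat.cast_ofNat]
    exact Ideal.mul_mem_right _ _ hw
  have hu : (2 : 𝓞 F) ∈ (w.under (𝓞 F)).asIdeal := by
    have e2 := Pool.Agent.H14F.nat_mem_under (L := F) w 2
    rw [Nat.cast_ofNat, Nat.cast_ofNat] at e2
    rw [e2]
    exact hw
  exact glob_pt hw (hM.split w hDw) hg hm hd (hreg _ hu) hi.separable h3

/-- `near`, with an even modulus. -/
theorem near2 (hF : S_FAMNW) (hC : S_CLSX) (hA : S_ADMW) (hS : S_STEPW) (g : ℕ) (F : Type)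
    [Field F] [NumberField F] (hg : 1 ≤ g) (n : ℕ) (hn : 0 < n) (f₀ : (𝓞 F)[X]) (hm : f₀.Monic)
    (hd : f₀.natDegree = 2 * g + 1) (ht : f₀.coeff (2 * g) = 0)
    (hmin : ∀ 𝔭 : Ideal (𝓞 F), 𝔭.IsPrime → (n : 𝓞 F) ∈ 𝔭 →
      ¬ ∀ j ≤ 2 * g, f₀.coeff j ∈ 𝔭 ^ (2 * (2 * g + 1 - j)))
    (ε : ℝ) (hε : 0 < ε) :
    ∃ (M : ℕ) (R : Set (𝓞 F)[X]), 0 < M ∧ 2 ∣ M ∧ PerR M R ∧ (∀ f ∈ R, Cg (sp F n) f f₀) ∧
      (∀ f, InFm g M R f → Min g f ∧ Irreducible (fF f) ∧ (StepW F M f).Infinite) ∧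
      ∃ (c Y₀ : ℝ), 0 < c ∧ ∀ Y : ℝ, {f : (𝓞 F)[X] | HtR g Y f}.Finite ∧
      (Y₀ ≤ Y → 0 < {f : (𝓞 F)[X] | HtR g Y f ∧ InFm g M R f}.ncard ∧
      c * ({f : (𝓞 F)[X] | HtR g Y f}.ncard : ℝ) ≤
        ({f : (𝓞 F)[X] | HtR g Y f ∧ InFm g M R f}.ncard : ℝ) ∧
      ∀ k : ℕ, ({f : (𝓞 F)[X] | HtR g Y f ∧ InFm g M R f ∧ ¬ BdA F M k f}.ncard : ℝ) ≤
        (1 - ∑ j ∈ Finset.range (k + 1), Pool.Agent.H68K.PR.pr2 j + ε) *
          ({f : (𝓞 F)[X] | HtR g Y f ∧ InFm g M R f}.ncard : ℝ)) := by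
  obtain ⟨K, hK⟩ := hF g F hg
  have hN : 0 < n ^ (2 * (2 * g + 1)) := pow_pos hn _
  obtain ⟨W, f₁, hNW, hKW, hcg, hW, hsep, p, hpW, hpS, hpI⟩ :=
    hC g K (n ^ (2 * (2 * g + 1))) F f₀ hg hN hm hd ht
  obtain ⟨T, 𝔮, r, P, 𝒥, hT, hT1, hJ, c, Y₀, hc, h⟩ := hK W f₁ hKW hW ε hε
  have hTp : ∀ q ∈ T, 0 < q := fun q hq => (hT q hq).1.pos
  have hM0 : 0 < md g W T := Nat.mul_pos hW.pos (pow_pos (Finset.prod_pos hTp) _)
  have hnW : n ∣ W := (dvd_pow_self n (by omega)).trans hNW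
  have hfi : ∀ f, InFm g (md g W T) (RR g W f₁ T P 𝒥 (md g W T)) f ↔ f ∈ FmlW g W f₁ T P 𝒥 :=
    fml_iff hg hW hT hJ
  refine ⟨md g W T, RR g W f₁ T P 𝒥 (md g W T), hM0, hW.two.trans (Dvd.intro _ rfl),
    per_rr _ _ _ _ _ _ _, fun f hf => ?_,
    fun f hf => ⟨?_, ?_, ?_⟩, c, Y₀, hc, fun Y => ?_⟩
  · exact cg_trans (cg_mono (sp_le hnW) (rr_cg hT1 hJ hW.mon hf))
      (cg_mono (sp_le (dvd_pow_self n (by omega))) hcg)
  · exact min_fml hg hn hW hNW hcg hmin hsep hT hT1 hJ ((hfi f).1 hf)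
  · have hcf : Cg (sp F W) f f₁ := rr_cg hT1 hJ hW.mon hf.mem
    obtain ⟨𝔭, hp, hWp, hirr⟩ := hW.irr
    have h0 : 𝔭 ≠ ⊥ := by
      rintro rfl
      rw [Ideal.mem_bot] at hWp
      exact hW.pos.ne' (by exact_mod_cast hWp)
    refine Pool.Agent.H14F.irr_of_mod hf.mon (w := ⟨𝔭, hp, h0⟩) ?_
    show Irreducible (rd 𝔭 f)
    rw [cg_irr (cg_mono ((Ideal.span_singleton_le_iff_mem _).2 hWp) hcf)]
    exact hirr
  · have hcf : Cg (sp F W) f f₁ := rr_cg hT1 hJ hW.mon hf.mem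
    refine hS g (md g W T) F f hg hM0 (hW.two.trans (Dvd.intro _ rfl)) hf.mon hf.deg
      ⟨p, hpS, fun 𝔭 hp hpp => ?_⟩
    have hWp : (W : 𝓞 F) ∈ 𝔭 := by
      obtain ⟨e, rfl⟩ := hpW
      rw [Nat.cast_mul]
      exact Ideal.mul_mem_right _ _ hpp
    rw [cg_irr (cg_mono ((Ideal.span_singleton_le_iff_mem _).2 hWp) hcf)]
    exact hpI 𝔭 hp hpp
  · obtain ⟨h1, h2⟩ := h Y
    refine ⟨h1, fun hY => ?_⟩
    obtain ⟨h3, h4, h5⟩ := h2 hY
    simp only [hfi]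
    refine ⟨h3, h4, fun k => ?_⟩
    refine le_trans ?_ (h5 k)
    have hsub : {f : (𝓞 F)[X] | HtR g Y f ∧ f ∈ FmlW g W f₁ T P 𝒥 ∧ ¬ BdA F (md g W T) k f} ⊆
        {f : (𝓞 F)[X] | HtR g Y f ∧ f ∈ FmlW g W f₁ T P 𝒥 ∧
          f ∉ FmlR g W f₁ T P 𝔮 𝒥 (2 ^ k)} := by
      rintro f ⟨a1, a2, a3⟩
      exact ⟨a1, a2, fun a4 => a3 (bda_of hA hg hW hT hT1 hJ a4)⟩
    exact_mod_cast Set.ncard_le_ncard hsub (h1.subset fun f hf => hf.1)

/-- The special polynomial in the class of `f₀` modulo an odd number. -/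
theorem odd_class (F : Type) [Field F] [NumberField F] {g : ℕ} (hg : 1 ≤ g) {n : ℕ} (hn : Odd n)
    {f₀ : (𝓞 F)[X]} (hm : f₀.Monic) (hd : f₀.natDegree = 2 * g + 1) (ht : f₀.coeff (2 * g) = 0)
    (hmin : Min g f₀) :
    ∃ f₂ : (𝓞 F)[X], f₂.Monic ∧ f₂.natDegree = 2 * g + 1 ∧ f₂.coeff (2 * g) = 0 ∧
      Cg (sp F n) f₂ f₀ ∧
      (∀ 𝔭 : Ideal (𝓞 F), 𝔭.IsPrime → ((4 * n : ℕ) : 𝓞 F) ∈ 𝔭 →
        ¬ ∀ j ≤ 2 * g, f₂.coeff j ∈ 𝔭 ^ (2 * (2 * g + 1 - j))) ∧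
      ∀ v : HeightOneSpectrum (𝓞 F), (2 : 𝓞 F) ∈ v.asIdeal → RegAt v f₂ := by
  obtain ⟨f₁, a1, a2, a3, a4, a5⟩ := Pool.Agent.H14P.exists_f1 F hg (W := 4) (by norm_num)
    (by norm_num)
  have hn0 : 0 < n := hn.pos
  set K := 2 * (2 * g + 1) with hK
  have hcop : Nat.Coprime (n ^ K) 4 := by
    apply Nat.Coprime.pow_left
    rw [show 4 = 2 ^ 2 by norm_num]
    exact (Nat.Coprime.pow_right 2 (Nat.coprime_two_right.2 hn))
  obtain ⟨u, hu1, hu2⟩ := Nat.chineseRemainder hcop 0 1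
  obtain ⟨u', hu'⟩ := (Nat.modEq_zero_iff_dvd.1 hu1)
  obtain ⟨t, ht4⟩ : ∃ t : ℤ, (u : ℤ) = 1 + 4 * t := by
    have h1 := (Nat.modEq_iff_dvd.1 hu2)
    obtain ⟨t, ht⟩ := h1
    refine ⟨-t, ?_⟩
    push_cast at ht
    linarith
  set f₂ : (𝓞 F)[X] := f₀ + C (u : 𝓞 F) * (f₁ - f₀) with hf₂
  have hlt : (C (u : 𝓞 F) * (f₁ - f₀)).degree < f₀.degree := by
    refine lt_of_le_of_lt (((degree_mul_le _ _).trans (add_le_add degree_C_le le_rfl)).trans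
      (zero_add _).le) ?_
    have h1 : (f₁ - f₀).degree < f₁.degree := by
      apply degree_sub_lt
      · rw [degree_eq_natDegree a1.ne_zero, degree_eq_natDegree hm.ne_zero, a2, hd]
      · exact a1.ne_zero
      · rw [a1.leadingCoeff, hm.leadingCoeff]
    rw [degree_eq_natDegree a1.ne_zero, a2] at h1
    rw [degree_eq_natDegree hm.ne_zero, hd]
    exact h1
  have hcf : ∀ j, f₂.coeff j = f₀.coeff j + (u : 𝓞 F) * (f₁.coeff j - f₀.coeff j) := by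
    intro j
    rw [hf₂, coeff_add, coeff_C_mul, coeff_sub]
  have hcg4 : ∀ j, f₁.coeff j - f₂.coeff j ∈ Ideal.span {(4 : 𝓞 F)} := by
    intro j
    rw [hcf, Ideal.mem_span_singleton]
    have h4 : (u : 𝓞 F) = 1 + 4 * (t : 𝓞 F) := by
      have := congrArg (Int.cast : ℤ → 𝓞 F) ht4
      push_cast at this
      exact this
    refine ⟨-((t : 𝓞 F) * (f₁.coeff j - f₀.coeff j)), ?_⟩
    rw [h4]
    ring
  refine ⟨f₂, hm.add_of_left hlt, ?_, ?_, ?_, ?_, ?_⟩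
  · rw [hf₂, natDegree_add_eq_left_of_degree_lt hlt, hd]
  · rw [hcf, ht, a3]
    ring
  · intro j
    rw [hcf, Ideal.mem_span_singleton]
    refine ⟨((n ^ (K - 1) * u' : ℕ) : 𝓞 F) * (f₁.coeff j - f₀.coeff j), ?_⟩
    have hKK : n ^ K = n * n ^ (K - 1) := by
      rw [← pow_succ']
      congr 1
    rw [hu', hKK]
    push_cast
    ring
  · intro 𝔭 hp hmem hall
    have h0 : 𝔭 ≠ ⊥ := by
      rintro rfl
      rw [Ideal.mem_bot] at hmem
      have : (4 * n : ℕ) = 0 := by exact_mod_cast hmem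
      omega
    have hmem' : ((4 : 𝓞 F)) * (n : 𝓞 F) ∈ 𝔭 := by
      have : ((4 * n : ℕ) : 𝓞 F) = 4 * (n : 𝓞 F) := by push_cast; ring
      rwa [this] at hmem
    rcases hp.mem_or_mem hmem' with h4 | hnp
    · -- over two
      have h4' : ((4 : ℕ) : 𝓞 F) ∈ (⟨𝔭, hp, h0⟩ : HeightOneSpectrum (𝓞 F)).asIdeal := by
        rw [Nat.cast_ofNat]; exact h4
      have hirr := a4 ⟨𝔭, hp, h0⟩ h4'
      have hirr' : Irreducible (f₁.map (Ideal.Quotient.mk 𝔭)) := hirr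
      haveI : 𝔭.IsMaximal := hp.isMaximal h0
      letI : Field (𝓞 F ⧸ 𝔭) := Ideal.Quotient.field _
      have hX : f₁.map (Ideal.Quotient.mk 𝔭) = X ^ (2 * g + 1) := by
        ext j
        rw [coeff_map, coeff_X_pow]
        split_ifs with hj
        · rw [hj, ← a2, a1.coeff_natDegree, map_one]
        · rcases Nat.lt_or_ge j (2 * g + 1) with hj2 | hj2
          · rw [Ideal.Quotient.eq_zero_iff_mem]
            have h1 : f₂.coeff j ∈ 𝔭 := Ideal.pow_le_self (by omega) (hall j (by omega))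
            have h2 : f₁.coeff j - f₂.coeff j ∈ 𝔭 :=
              ((Ideal.span_singleton_le_iff_mem _).2 h4) (hcg4 j)
            have := 𝔭.add_mem h2 h1
            rwa [sub_add_cancel] at this
          · rw [coeff_eq_zero_of_natDegree_lt (by rw [a2]; omega), map_zero]
      rw [hX] at hirr'
      rw [show 2 * g + 1 = (2 * g) + 1 from rfl, pow_succ] at hirr'
      rcases hirr'.isUnit_or_isUnit rfl with h1 | h1
      · have h2 := natDegree_eq_zero_of_isUnit h1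
        rw [natDegree_X_pow] at h2
        omega
      · have h2 := natDegree_eq_zero_of_isUnit h1
        rw [natDegree_X] at h2
        omega
    · -- over n
      refine hmin 𝔭 hp h0 fun j hj => ?_
      have h1 := hall j hj
      have h2 : (u : 𝓞 F) ∈ 𝔭 ^ (2 * (2 * g + 1 - j)) := by
        rw [hu']
        push_cast
        apply Ideal.mul_mem_right
        exact Ideal.pow_le_pow_right (by omega) (Ideal.pow_mem_pow hnp K)
      have h3 : f₀.coeff j = f₂.coeff j - (u : 𝓞 F) * (f₁.coeff j - f₀.coeff j) := by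
        rw [hcf]; ring
      rw [h3]
      exact Ideal.sub_mem _ h1 (Ideal.mul_mem_right _ _ h2)
  · intro v hv
    refine regAt_congr (a5 v hv) fun j => ?_
    have h1 : Ideal.span {(4 : 𝓞 F)} ≤ v.asIdeal ^ 2 := by
      rw [Ideal.span_singleton_le_iff_mem, pow_two, show (4 : 𝓞 F) = 2 * 2 by norm_num]
      exact Ideal.mul_mem_mul hv hv
    exact h1 (hcg4 j)

end Pool.Agent.H14N
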